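import Mathlib

/-!
# A factor-of-iid Schreier decoration with infinite monochromatic paths

We give a transitive 6-regular graph `G` and a factor-of-iid Schreier decoration of `G` one of
whose colour classes almost surely has a bi-infinite path. The graph is a Cayley graph of the
semidirect product of `ZMod 5` and `ℤ` (`1 ∈ ℤ` acting by multiplication by `2`), with generators
`(1, 0)`, `(0, 1)` and `(1, 2)`. The point is that every automorphism of `G` preserves the colours
and orientations of the Cayley graph; this is shown by means of a number attached to the pairs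
of adjacent vertices, invariant under automorphisms, which takes distinct values at the six
neighbours of a vertex.
-/

set_option autoImplicit false

open MeasureTheory

namespace Pool.Agent.Results.MP_a13a55_pr.InvariantDecoration

section defs

variable {V : Type*}

/-- `D i x y` says that the edge between `x` and `y` has colour `i` and is oriented from `x` to
`y`. `D` is a Schreier decoration of `G` if every edge gets exactly one colour and exactly one
orientation, and if for every colour every vertex has exactly one outgoing and exactly one incoming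
edge. -/
structure IsSchreier (G : SimpleGraph V) (d : ℕ) (D : Fin d → V → V → Prop) : Prop where
  adj : ∀ i x y, D i x y → G.Adj x y
  edge : ∀ x y, G.Adj x y →
    ∃! p : Fin d × Bool, (p.2 = true ∧ D p.1 x y) ∨ (p.2 = false ∧ D p.1 y x)
  out : ∀ i x, ∃! y, D i x y
  into : ∀ i y, ∃! x, D i x y

/-- A factor-of-iid Schreier decoration: a measurable map `F` from `[0, 1] ^ V` to the Schreier
decorations which commutes with the action of the automorphism group of `G`. -/
structure IsFactor (G : SimpleGraph V) (d : ℕ) (F : (V → unitInterval) → Fin d → V → V → Prop) :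
    Prop where
  measurable : Measurable F
  equivariant : ∀ (φ : G ≃g G) (ω : V → unitInterval) (i : Fin d) (x y : V),
    F (fun v => ω (φ.symm v)) i (φ x) (φ y) ↔ F ω i x y
  schreier : ∀ ω, IsSchreier G d (F ω)

/-- Some colour class contains a bi-infinite directed path. -/
def HasInfinitePath {d : ℕ} (D : Fin d → V → V → Prop) : Prop :=
  ∃ (i : Fin d) (x : ℤ → V), Function.Injective x ∧ ∀ n, D i (x n) (x (n + 1))

/-- The law of iid uniform labels in `[0, 1]`. -/
noncomputable def iid (V : Type*) : Measure (V → unitInterval) :=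
  Measure.infinitePi (fun _ : V => (volume : Measure unitInterval))

end defs

/-- `2 ^ n` modulo `5` -/
def pw (n : ℤ) : ZMod 5 := 2 ^ (n % 4).toNat

lemma pw_add (n m : ℤ) : pw (n + m) = pw n * pw m := by
  have key : ∀ a b : Fin 4, (2 : ZMod 5) ^ ((a.val + b.val) % 4) = 2 ^ a.val * 2 ^ b.val := by
    decide
  have h1 : (n % 4).toNat < 4 := by omega
  have h2 : (m % 4).toNat < 4 := by omega
  have h3 : ((n + m) % 4).toNat = ((n % 4).toNat + (m % 4).toNat) % 4 := by omega
  unfold pw
  rw [h3]
  exact key ⟨_, h1⟩ ⟨_, h2⟩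

/-- multiplication of the semidirect product -/
def mul (x y : ZMod 5 × ℤ) : ZMod 5 × ℤ := (x.1 + pw x.2 * y.1, x.2 + y.2)

lemma mul_assoc' (x y z : ZMod 5 × ℤ) : mul (mul x y) z = mul x (mul y z) := by
  unfold mul
  rw [Prod.mk.injEq]
  simp only
  refine ⟨?_, by ring⟩
  rw [pw_add]
  ring

lemma mul_one' (x : ZMod 5 × ℤ) : mul x (0, 0) = x := by
  simp [mul]

lemma one_mul' (x : ZMod 5 × ℤ) : mul (0, 0) x = x := by
  simp [mul, pw]

/-- inverse -/
def inv (x : ZMod 5 × ℤ) : ZMod 5 × ℤ := (-(pw (-x.2) * x.1), -x.2)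

lemma inv_mul' (x : ZMod 5 × ℤ) : mul (inv x) x = (0, 0) := by
  simp [mul, inv]

lemma mul_inv' (x : ZMod 5 × ℤ) : mul x (inv x) = (0, 0) := by
  unfold mul inv
  simp only [Prod.mk.injEq, add_neg_cancel, and_true]
  have : pw x.2 * pw (-x.2) = 1 := by
    rw [← pw_add, add_neg_cancel]
    simp [pw]
  calc x.1 + pw x.2 * -(pw (-x.2) * x.1) = x.1 - (pw x.2 * pw (-x.2)) * x.1 := by ring
    _ = 0 := by rw [this]; ring

lemma mul_left_inj' (x : ZMod 5 × ℤ) : Function.Injective (mul x) := by
  intro y z h
  rw [← one_mul' y, ← one_mul' z, ← inv_mul' x, mul_assoc', mul_assoc', h]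

/-- the three generators and their inverses -/
def gen : Fin 6 → ZMod 5 × ℤ := ![(1, 0), (0, 1), (1, 2), (4, 0), (0, -1), (1, -2)]

lemma gen_inv (i : Fin 6) : mul (gen i) (gen (i + 3)) = (0, 0) := by
  fin_cases i <;> decide

lemma gen_ne (i : Fin 6) : gen i ≠ (0, 0) := by
  fin_cases i <;> decide

/-- the neighbours -/
def nb (x : ZMod 5 × ℤ) : Finset (ZMod 5 × ℤ) := Finset.univ.image (fun i : Fin 6 => mul x (gen i))

lemma mem_nb {x y : ZMod 5 × ℤ} : y ∈ nb x ↔ ∃ i, mul x (gen i) = y := by
  simp [nb]

/-- The graph. -/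
def G0 : SimpleGraph (ZMod 5 × ℤ) where
  Adj x y := y ∈ nb x
  symm := ⟨by
    intro x y h
    rw [mem_nb] at h ⊢
    obtain ⟨i, rfl⟩ := h
    exact ⟨i + 3, by rw [mul_assoc', gen_inv, mul_one']⟩⟩
  loopless := ⟨by
    intro x h
    rw [mem_nb] at h
    obtain ⟨i, hi⟩ := h
    exact gen_ne i (mul_left_inj' x (hi.trans (mul_one' x).symm))⟩

/-- the numerical invariant of a pair of vertices -/
def I (x y : ZMod 5 × ℤ) : ℕ := ∑ z ∈ nb x, (∑ u ∈ nb z, (nb u ∩ nb y).card) ^ 2

lemma I_map {g : ZMod 5 × ℤ → ZMod 5 × ℤ} (hg : Function.Injective g)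
    (h : ∀ y, nb (g y) = (nb y).image g) (x y : ZMod 5 × ℤ) : I (g x) (g y) = I x y := by
  have h1 : ∀ u, (nb (g u) ∩ nb (g y)).card = (nb u ∩ nb y).card := by
    intro u
    rw [h u, h y, ← Finset.image_inter _ _ hg, Finset.card_image_of_injective _ hg]
  have h2 : ∀ z, ∑ u ∈ nb (g z), (nb u ∩ nb (g y)).card = ∑ u ∈ nb z, (nb u ∩ nb y).card := by
    intro z
    rw [h z, Finset.sum_image fun a _ b _ hab => hg hab]
    exact Finset.sum_congr rfl fun u _ => h1 u
  unfold I
  rw [h x, Finset.sum_image fun a _ b _ hab => hg hab]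
  exact Finset.sum_congr rfl fun z _ => by rw [h2 z]

lemma nb_mul (x y : ZMod 5 × ℤ) : nb (mul x y) = (nb y).image (mul x) := by
  ext z
  simp only [nb, Finset.mem_image, Finset.mem_univ, true_and, exists_exists_eq_and, mul_assoc']

lemma nb_iso (φ : G0 ≃g G0) (y : ZMod 5 × ℤ) : nb (φ y) = (nb y).image φ := by
  ext z
  rw [Finset.mem_image]
  constructor
  · intro h
    refine ⟨φ.symm z, ?_, by simp⟩
    have h1 : G0.Adj (φ y) (φ (φ.symm z)) := by
      rw [φ.apply_symm_apply]; exact h
    exact φ.map_rel_iff.1 h1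
  · rintro ⟨w, hw, rfl⟩
    have h1 : G0.Adj y w := hw
    exact φ.map_rel_iff.2 h1

/-- values of the invariant -/
def val : Fin 6 → ℕ := ![77, 62, 17, 49, 54, 21]

lemma I_gen (i : Fin 6) : I (0, 0) (gen i) = val i := by
  revert i
  decide +kernel

lemma val_inj : Function.Injective val := by
  intro i j
  revert i j
  decide

lemma I_mul_gen (x : ZMod 5 × ℤ) (i : Fin 6) : I x (mul x (gen i)) = val i := by
  have := I_map (mul_left_inj' x) (nb_mul x) (0, 0) (gen i)
  rw [mul_one', I_gen] at this
  exact this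

/-- **Rigidity.** Every automorphism preserves the colours and the orientations of the Cayley
graph. -/
lemma rigid (φ : G0 ≃g G0) (x : ZMod 5 × ℤ) (i : Fin 6) :
    φ (mul x (gen i)) = mul (φ x) (gen i) := by
  have h1 : G0.Adj x (mul x (gen i)) := mem_nb.2 ⟨i, rfl⟩
  have h2 : φ (mul x (gen i)) ∈ nb (φ x) := φ.map_rel_iff.2 h1
  rw [mem_nb] at h2
  obtain ⟨j, hj⟩ := h2
  have h3 : I (φ x) (φ (mul x (gen i))) = val i := by
    rw [I_map φ.injective (nb_iso φ), I_mul_gen]
  rw [← hj, I_mul_gen] at h3
  rw [← hj, val_inj h3]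

/-- The decoration: the three generators `(1, 0)`, `(0, 1)`, `(1, 2)` are the three colours. -/
def D (i : Fin 3) (x y : ZMod 5 × ℤ) : Prop := y = mul x (![(1, 0), (0, 1), (1, 2)] i)

/-- the index in `Fin 6` of the generator of colour `i` -/
def idx : Fin 3 → Fin 6 := ![0, 1, 2]

lemma D_iff (i : Fin 3) (x y : ZMod 5 × ℤ) : D i x y ↔ y = mul x (gen (idx i)) := by
  fin_cases i <;> rfl

lemma aux1 : ∀ (i : Fin 3) (j : Fin 6), mul (gen j) (gen (idx i)) = (0, 0) ↔ j = idx i + 3 := by
  decide

lemma aux2 : ∀ j : Fin 6, ∃! p : Fin 3 × Bool,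
    (p.2 = true ∧ j = idx p.1) ∨ (p.2 = false ∧ j = idx p.1 + 3) := by
  unfold ExistsUnique
  decide

lemma gen_inj : Function.Injective gen := by
  intro i j
  revert i j
  decide

lemma D_schreier : IsSchreier G0 3 D where
  adj i x y h := mem_nb.2 ⟨idx i, ((D_iff i x y).1 h).symm⟩
  edge x y h := by
    obtain ⟨j, rfl⟩ := mem_nb.1 h
    have hrev : ∀ i : Fin 3, D i (mul x (gen j)) x ↔ j = idx i + 3 := by
      intro i
      rw [D_iff, mul_assoc', ← aux1]
      constructor
      · intro h1
        exact mul_left_inj' x (h1.symm.trans (mul_one' x).symm)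
      · intro h1
        rw [h1, mul_one']
    have hfwd : ∀ i : Fin 3, D i x (mul x (gen j)) ↔ j = idx i := by
      intro i
      rw [D_iff]
      constructor
      · intro h1
        exact gen_inj (mul_left_inj' x h1)
      · intro h1
        rw [h1]
    simp only [hrev, hfwd]
    exact aux2 j
  out i x := ⟨_, rfl, fun y h => h⟩
  into i y := by
    refine ⟨mul y (gen (idx i + 3)), ?_, ?_⟩
    · simp only
      rw [D_iff, mul_assoc', (aux1 i _).2 rfl, mul_one']
    · intro x h
      rw [D_iff] at h
      rw [h, mul_assoc', gen_inv, mul_one']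

lemma connected : G0.Connected := by
  have step : ∀ (x : ZMod 5 × ℤ) (i : Fin 6), G0.Reachable x (mul x (gen i)) := fun x i =>
    SimpleGraph.Adj.reachable (mem_nb.2 ⟨i, rfl⟩)
  have h0 : ∀ n : ℤ, G0.Reachable (0, 0) (0, n) := by
    intro n
    induction n using Int.induction_on with
    | zero => exact SimpleGraph.Reachable.refl _
    | succ n ih =>
      refine ih.trans ?_
      have h1 : mul (0, (n : ℤ)) (gen 1) = (0, (n : ℤ) + 1) := by
        simp [mul, gen]
      rw [← h1]
      exact step _ 1
    | pred n ih =>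
      refine ih.trans ?_
      have h1 : mul (0, -(n : ℤ)) (gen 4) = (0, -(n : ℤ) - 1) := by
        simp [mul, gen, sub_eq_add_neg]
      rw [← h1]
      exact step _ 4
  have h1 : ∀ (k : ℕ), G0.Reachable (0, 0) ((k : ZMod 5), 0) := by
    intro k
    induction k with
    | zero => rw [Nat.cast_zero]
    | succ k ih =>
      refine ih.trans ?_
      have h1 : mul ((k : ZMod 5), (0 : ℤ)) (gen 0) = (((k + 1 : ℕ) : ZMod 5), 0) := by
        simp [mul, gen, pw]
      rw [← h1]
      exact step _ 0
  have htrans : ∀ (g : ZMod 5 × ℤ) {x y : ZMod 5 × ℤ}, G0.Reachable x y →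
      G0.Reachable (mul g x) (mul g y) := by
    intro g x y h
    obtain ⟨p⟩ := h
    induction p with
    | nil => exact SimpleGraph.Reachable.refl _
    | cons h p ih =>
      refine SimpleGraph.Reachable.trans ?_ ih
      obtain ⟨i, rfl⟩ := mem_nb.1 h
      rw [← mul_assoc']
      exact step _ i
  have h2 : ∀ x : ZMod 5 × ℤ, G0.Reachable (0, 0) x := by
    intro x
    have h3 := htrans (((x.1.val : ℕ) : ZMod 5), 0) (h0 x.2)
    rw [mul_one'] at h3
    have h4 : mul (((x.1.val : ℕ) : ZMod 5), 0) (0, x.2) = x := by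
      simp [mul]
    rw [h4] at h3
    exact (h1 _).trans h3
  have : Nonempty (ZMod 5 × ℤ) := ⟨(0, 0)⟩
  exact SimpleGraph.Connected.mk fun x y => (h2 x).symm.trans (h2 y)

/-- left translations are automorphisms -/
def trans (g : ZMod 5 × ℤ) : G0 ≃g G0 where
  toFun := mul g
  invFun := mul (inv g)
  left_inv x := by rw [← mul_assoc', inv_mul', one_mul']
  right_inv x := by rw [← mul_assoc', mul_inv', one_mul']
  map_rel_iff' := by
    intro x y
    change mul g y ∈ nb (mul g x) ↔ y ∈ nb x
    rw [nb_mul]
    constructor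
    · intro h
      rw [Finset.mem_image] at h
      obtain ⟨z, hz, h2⟩ := h
      rwa [← mul_left_inj' g h2]
    · intro h
      exact Finset.mem_image_of_mem _ h

lemma transitive (x y : ZMod 5 × ℤ) : ∃ φ : G0 ≃g G0, φ x = y := by
  refine ⟨trans (mul y (inv x)), ?_⟩
  change mul (mul y (inv x)) x = y
  rw [mul_assoc', inv_mul', mul_one']

lemma regular (x : ZMod 5 × ℤ) : (G0.neighborSet x).encard = 6 := by
  have h : G0.neighborSet x = ((nb x : Finset (ZMod 5 × ℤ)) : Set (ZMod 5 × ℤ)) := rfl
  rw [h, Set.encard_coe_eq_coe_finsetCard]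
  unfold nb
  rw [Finset.card_image_of_injective]
  · simp
  · intro i j hij
    exact gen_inj (mul_left_inj' x hij)

/-- **Theorem.** There are a transitive `2 * 3`-regular graph and a factor-of-iid Schreier
decoration of it which almost surely has an infinite monochromatic path. -/
theorem result : ∃ (V : Type) (G : SimpleGraph V)
    (F : (V → unitInterval) → Fin 3 → V → V → Prop),
    Countable V ∧ G.Connected ∧ (∀ x y, ∃ φ : G ≃g G, φ x = y) ∧
    (∀ x, (G.neighborSet x).encard = 2 * 3) ∧ IsFactor G 3 F ∧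
    iid V {ω | HasInfinitePath (F ω)} = 1 := by
  refine ⟨_, G0, fun _ => D, inferInstance, connected, transitive, ?_, ?_, ?_⟩
  · intro x
    rw [regular]
    norm_num
  · refine ⟨measurable_const, ?_, fun _ => D_schreier⟩
    intro φ ω i x y
    rw [D_iff, D_iff, ← rigid]
    exact φ.injective.eq_iff
  · have hpath : HasInfinitePath D := by
      refine ⟨1, fun n => (0, n), fun n m h => ?_, fun n => ?_⟩
      · simpa using h
      · simp [D, mul]
    have : {ω : ZMod 5 × ℤ → unitInterval | HasInfinitePath D} = Set.univ := by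
      ext ω
      simp [hpath]
    rw [this]
    unfold iid
    exact measure_univ

end Pool.Agent.Results.MP_a13a55_pr.InvariantDecoration
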